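import Pool.Agent.J4H91.Iso.Basic

/-!
# MP_e0e9b7_co: `ι(G □ H) ≥ ι_G(M) · γ(H)` for every induced matching `M` of `G`

An analogue, for the isolation number, of the Aharoni–Szabó theorem on Vizing's conjecture
(`γ(G □ H) ≥ γ_G(I) γ(H)` for independent `I`). Definitions in `Pool.Agent.J4H91.Iso.Basic`.
-/

set_option autoImplicit false

namespace Pool.Agent.Results.MP_e0e9b7_co.InducedMatching

open Pool.Agent.J4H91.Iso

/-- **Aharoni–Szabó type bound for the isolation number.** Let `G`, `H` be finite graphs. For
every induced matching `M` of `G`, `ι(G □ H) ≥ ι_G(M) γ(H)`, where `ι_G(M)` is the least size of a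
set `A` of vertices of `G` such that every edge of `M` has an end in `N[A]`. -/
theorem result {V W : Type*} [Fintype V] [Fintype W] (G : SimpleGraph V) (H : SimpleGraph W)
    (M : Set (Sym2 V)) (hM : IsInducedMatch G M) :
    hitNum G M * domNum H ≤ isoNum (G.boxProd H) :=
  induced_bound G H M hM

end Pool.Agent.Results.MP_e0e9b7_co.InducedMatching
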