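import Pool.Agent.J4H91.Iso.Basic

/-!
# MP_e0e9b7_co: Q1 holds when `G` is strongly chordal, in particular when `G` is a forest

Definitions and proofs in `Pool.Agent.J4H91.Iso.Basic`.
-/

set_option autoImplicit false

namespace Pool.Agent.Results.MP_e0e9b7_co.StronglyChordal

open Pool.Agent.J4H91.Iso

/-- **Q1 for strongly chordal graphs.** Let `G`, `H` be finite graphs, `G` strongly chordal (with a
strong elimination ordering) or a forest. Then `ι(G □ H) ≥ ι(G) γ(H) ≥ ι(G) ι(H)`. -/
theorem result {V W : Type*} [Fintype V] [Fintype W] (G : SimpleGraph V) (H : SimpleGraph W)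
    (hG : IsStronglyChordal G ∨ G.IsAcyclic) :
    isoNum G * isoNum H ≤ isoNum G * domNum H ∧ isoNum G * domNum H ≤ isoNum (G.boxProd H) := by
  have hG' : IsStronglyChordal G := hG.elim id forest_stronglyChordal
  obtain ⟨M, hM, hle⟩ := stronglyChordal_induced hG'
  exact ⟨Nat.mul_le_mul_left _ (iso_le_dom H),
    (Nat.mul_le_mul_right _ hle).trans (induced_bound G H M hM)⟩

end Pool.Agent.Results.MP_e0e9b7_co.StronglyChordal
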